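import Pool.Agent.Lib.MP_90485e_an.One

/-!
Runge-type approximation of holomorphic foliations: the question is equivalent to the enlargement
of one of the coordinate discs of the polydisc by any fixed factor `ρ > 1`.
-/

set_option autoImplicit false

namespace Pool.Agent.Results.MP_90485e_an.OneDiscEnlargement

open Pool.Agent.Lib.MP_90485e_an

/-- The question Q1 in codimension `q` in `ℂ^k` has a positive answer if and only if every
foliation of codimension `q` of the unit polydisc is, on every smaller polydisc, a uniform limit of
foliations of the product of the disc of radius `ρ` in the coordinate `i₀` with unit discs in the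
other coordinates. -/
theorem result (k q : ℕ) (i₀ : Fin k) (ρ : ℝ) (hρ : 1 < ρ) :
    QuestionOne k q ↔ EnlargeOne k q i₀ ρ :=
  questionOne_iff_one k q i₀ hρ

end Pool.Agent.Results.MP_90485e_an.OneDiscEnlargement
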