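import Pool.Agent.Lib.MP_90485e_an.Log

/-!
Runge-type approximation of holomorphic foliations: a class of foliations for which the
approximation by polynomial or entire ones exists.
-/

set_option autoImplicit false

namespace Pool.Agent.Results.MP_90485e_an.TameFoliations

open Pool.Agent.Lib.MP_90485e_an

/-- (1) Families tame with respect to polynomial families are holomorphic, integrable and limits of
polynomial integrable families, and every such limit is tame. (2) The same for entire families.
(3), (4) Two explicit classes in the unit polydisc: meromorphic first integrals, logarithmic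
forms. -/
theorem result :
    (∀ (k q : ℕ) (R : ℝ) (α : Forms k q),
      (Tame (fun _ _ β => IsPoly β) k q R α → Holo (polydisc k R) α ∧
        (∀ z ∈ polydisc k R, FrobeniusAt α z) ∧ PolyLimit (polydisc k R) α) ∧
      (PolyLimit (polydisc k R) α → Tame (fun _ _ β => IsPoly β) k q R α)) ∧
    (∀ (k q : ℕ) (R : ℝ) (α : Forms k q),
      (Tame (fun _ _ β => Holo Set.univ β) k q R α → Holo (polydisc k R) α ∧
        (∀ z ∈ polydisc k R, FrobeniusAt α z) ∧ EntireLimit (polydisc k R) α) ∧
      (EntireLimit (polydisc k R) α → Tame (fun _ _ β => Holo Set.univ β) k q R α)) ∧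
    (∀ (k q : ℕ) (h : Fin q → Fin q → (Fin k → ℂ) → ℂ) (u : Fin q → (Fin k → ℂ) → ℂ)
      (v : (Fin k → ℂ) → ℂ), (∀ j l, DifferentiableOn ℂ (h j l) (polydisc k 1)) →
      (∀ l, DifferentiableOn ℂ (u l) (polydisc k 1)) → DifferentiableOn ℂ v (polydisc k 1) →
      PolyLimit (polydisc k 1)
        (fun j i z => ∑ l, h j l z * (v z * grad (u l) z i - u l z * grad v z i))) ∧
    (∀ (k N : ℕ) (c : Fin N → ℂ) (h : (Fin k → ℂ) → ℂ) (f : Fin N → (Fin k → ℂ) → ℂ),
      DifferentiableOn ℂ h (polydisc k 1) → (∀ s, DifferentiableOn ℂ (f s) (polydisc k 1)) →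
      PolyLimit (q := 1) (polydisc k 1)
        (fun _ i z => h z * ∑ s, c s * (∏ l ∈ Finset.univ.erase s, f l z) * grad (f s) z i)) := by
  refine ⟨fun k q R α => ⟨fun h => ?_, ?_⟩, fun k q R α => ⟨fun h => ?_, ?_⟩,
    fun k q h u v hh hu hv => polyLimit_rational hh hu hv,
    fun k N c h f hh hf => polyLimit_log c hh hf⟩
  · have hp := h.polyLimit
    obtain ⟨A, h1, h2, h3⟩ := hp.entireLimit
    have := limit_integrable (isOpen_polydisc k R)
      (fun n j i => (h1 n j i).mono (Set.subset_univ _)) (fun n z _ => h2 n z) h3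
    exact ⟨this.1, this.2, hp⟩
  · rintro ⟨A, h1, h2, h3⟩
    exact Tame.lim (A := A) (fun n => Tame.glob (h1 n) (h2 n)) h3
  · obtain ⟨A, h1, h2, h3⟩ := h.entireLimit
    have := limit_integrable (isOpen_polydisc k R)
      (fun n j i => (h1 n j i).mono (Set.subset_univ _)) (fun n z _ => h2 n z) h3
    exact ⟨this.1, this.2, h.entireLimit⟩
  · rintro ⟨A, h1, h2, h3⟩
    exact Tame.lim (A := A) (fun n => Tame.glob (h1 n) (h2 n)) h3

end Pool.Agent.Results.MP_90485e_an.TameFoliations
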